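import Pool.Agent.Helper30.TR.Spec

/-!
# Part FC of project TR: an empty triangle of chords is a three-face
-/

set_option autoImplicit false

namespace Pool.Agent.Helper44.TR.FC

open MeasureTheory Set Pool.Agent.Helper30.TriFace Pool.Agent.Helper30.TR

theorem det3_swap' (a b x : ℝ × ℝ) : det3 b a x = - det3 a b x := by
  unfold det3; ring

theorem collinear_zero {a b P Q R : ℝ × ℝ} (hab : a ≠ b) (hP : det3 a b P = 0)
    (hQ : det3 a b Q = 0) (hR : det3 a b R = 0) : det3 P Q R = 0 := by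
  obtain ⟨r, rfl⟩ := line_param hab hP
  obtain ⟨s, rfl⟩ := line_param hab hQ
  obtain ⟨t, rfl⟩ := line_param hab hR
  unfold det3
  simp only [Prod.fst_add, Prod.smul_fst, Prod.snd_add, Prod.smul_snd, smul_eq_mul]
  ring

theorem pt_ne {n : ℕ} (D : ConvexDrawing n) {i j : Fin n} (hij : i ≠ j) : D.pt i ≠ D.pt j := by
  intro h
  exact hij (D.convexPosition.injective h)

theorem orient {n : ℕ} (D : ConvexDrawing n) {i j : Fin n} (hij : i ≠ j) {P : ℝ × ℝ}
    (h : det3 (D.pt i) (D.pt j) P ≠ 0) :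
    ∃ i' j' : Fin n, i' ≠ j' ∧ 0 < det3 (D.pt i') (D.pt j') P ∧
      ∀ X, det3 (D.pt i) (D.pt j) X = 0 → det3 (D.pt i') (D.pt j') X = 0 := by
  rcases lt_or_gt_of_ne h with h1 | h1
  · refine ⟨j, i, hij.symm, ?_, fun X hX => ?_⟩
    · rw [det3_swap']; linarith
    · rw [det3_swap', hX, neg_zero]
  · exact ⟨i, j, hij, h1, fun X hX => hX⟩

theorem main : S_FC := by
  intro n D e g h Q1 Q2 Q3 he hg hh g1 h1 e2 h2 e3 g3 hd c1 c2 c3 hE
  have ne1 : det3 (D.pt e.1) (D.pt e.2) Q1 ≠ 0 := fun hz => hd (collinear_zero (pt_ne D he) hz e2 e3)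
  have ne2 : det3 (D.pt g.1) (D.pt g.2) Q2 ≠ 0 := fun hz => hd (collinear_zero (pt_ne D hg) g1 hz g3)
  have ne3 : det3 (D.pt h.1) (D.pt h.2) Q3 ≠ 0 := fun hz => hd (collinear_zero (pt_ne D hh) h1 h2 hz)
  obtain ⟨i0, j0, h0, p0, z0⟩ := orient D he ne1
  obtain ⟨i1, j1, h1', p1, z1⟩ := orient D hg ne2
  obtain ⟨i2, j2, h2', p2, z2⟩ := orient D hh ne3
  have p1' : det3 (D.pt j1) (D.pt i1) Q2 < 0 := by rw [det3_swap']; linarith
  have hint := interior_triangle hd (p0 := D.pt i0) (q0 := D.pt j0) (p1 := D.pt j1) (q1 := D.pt i1)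
    (p2 := D.pt i2) (q2 := D.pt j2) (z0 _ e2) (z0 _ e3) p0
    (by rw [det3_swap', z1 _ g1, neg_zero]) (by rw [det3_swap', z1 _ g3, neg_zero]) p1'
    (z2 _ h1) (z2 _ h2) p2
  set T := interior (convexHull ℝ {Q1, Q2, Q3}) with hT
  have hTW : T ⊆ convexHull ℝ (range D.pt) \ edges D := by
    intro z hz
    refine ⟨?_, ?_⟩
    · have hz' : z ∈ convexHull ℝ {Q1, Q2, Q3} := interior_subset hz
      refine convexHull_min ?_ (convex_convexHull ℝ _) hz'
      rintro y (rfl | rfl | rfl)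
      · exact c1
      · exact c2
      · exact c3
    · rintro ⟨i, j, hij, hx⟩
      exact hE (i, j) hij z hz (seg_det hx)
  have hTne : T.Nonempty := by
    rw [hint]
    refine ⟨(1 / 3 : ℝ) • Q1 + (1 / 3 : ℝ) • Q2 + (1 / 3 : ℝ) • Q3, ?_, ?_, ?_⟩
    · rw [det3_comb3 _ _ _ _ _ (by norm_num), z0 _ e2, z0 _ e3]; linarith
    · rw [det3_comb3 _ _ _ _ _ (by norm_num), det3_swap' (D.pt i1) (D.pt j1) Q1,
        det3_swap' (D.pt i1) (D.pt j1) Q3, z1 _ g1, z1 _ g3]; linarith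
    · rw [det3_comb3 _ _ _ _ _ (by norm_num), z2 _ h1, z2 _ h2]; linarith
  have hTc : IsPreconnected T := (convex_convexHull ℝ _).interior.isPreconnected
  obtain ⟨x, hx⟩ := hTne
  refine ⟨⟨x, hTW hx, ?_⟩, Q1, Q2, Q3, affInd_of_det hd, rfl⟩
  apply Subset.antisymm
  · exact hTc.subset_connectedComponentIn hx hTW
  · intro y hy
    have hC : IsPreconnected (connectedComponentIn (convexHull ℝ (range D.pt) \ edges D) x) :=
      isPreconnected_connectedComponentIn
    have hCW := connectedComponentIn_subset (convexHull ℝ (range D.pt) \ edges D) x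
    have hxC : x ∈ connectedComponentIn (convexHull ℝ (range D.pt) \ edges D) x :=
      mem_connectedComponentIn (hTW hx)
    have hx' := hx
    rw [hint] at hx' ⊢
    obtain ⟨x0, x1, x2⟩ := hx'
    refine ⟨sign_const D hC hCW h0 hxC hy x0, ?_, sign_const D hC hCW h2' hxC hy x2⟩
    have := sign_const D hC hCW h1' hxC hy (by rw [det3_swap'] at x1; linarith)
    rw [det3_swap']; linarith

end Pool.Agent.Helper44.TR.FC
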