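import Pool.Agent.Helper30.TR.Spec

/-!
# Part ROT of project TR: rotations preserve the area
-/

set_option autoImplicit false

namespace Pool.Agent.Helper44.TR.ROT

open MeasureTheory Set Pool.Agent.Helper30.TriFace Pool.Agent.Helper30.TR

noncomputable def rot (θ : ℝ) : ℝ × ℝ →ₗ[ℝ] ℝ × ℝ :=
  Matrix.toLin (Module.Basis.finTwoProd ℝ) (Module.Basis.finTwoProd ℝ)
    !![Real.cos θ, Real.sin θ; Real.cos (θ + Real.pi / 2), Real.sin (θ + Real.pi / 2)]

theorem rot_apply (θ : ℝ) (x : ℝ × ℝ) : rot θ x = (hh θ x, hh (θ + Real.pi / 2) x) := by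
  rw [rot, Matrix.toLin_finTwoProd_apply]
  unfold hh
  refine Prod.ext ?_ ?_ <;> simp only <;> ring

theorem det_rot (θ : ℝ) : LinearMap.det (rot θ) = 1 := by
  rw [rot, LinearMap.det_toLin, Matrix.det_fin_two_of, Real.cos_add_pi_div_two,
    Real.sin_add_pi_div_two]
  have := Real.sin_sq_add_cos_sq θ
  nlinarith

theorem main : S_ROT := by
  intro θ S _
  have h : {x : ℝ × ℝ | (hh θ x, hh (θ + Real.pi / 2) x) ∈ S} = rot θ ⁻¹' S := by
    ext x
    simp only [mem_ofPred_eq, mem_preimage, rot_apply]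
  rw [h, Measure.addHaar_preimage_linearMap volume (by rw [det_rot]; exact one_ne_zero), det_rot]
  simp

end Pool.Agent.Helper44.TR.ROT
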